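import Pool.Agent.P.MP_7a8567_an.Cub.Flag
import Pool.Agent.P.MP_7a8567_an.Alg.Sq0

set_option autoImplicit false

/-! Statement R for a run of reflections in one cubic. -/

namespace Ivrii.Cub

variable {k Ω : Type} [Field k] [Field Ω] [Algebra k Ω] {Q : R2 k}

/-- coordinates of a flag -/
def co (φ : Flg Ω Q) : Fin 4 → Ω := ![φ.1.1.1, φ.1.1.2, φ.1.2.1, φ.1.2.2]

lemma co_smul (σ : Ω ≃ₐ[k] Ω) (φ : Flg Ω Q) (i : Fin 4) : co (σ • φ) i = σ (co φ i) := by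
  fin_cases i <;> rfl

lemma co_ext {φ χ : Flg Ω Q} (h : ∀ i, co φ i = co χ i) : φ = χ :=
  flg_ext (Prod.ext (h 0) (h 1)) (Prod.ext (h 2) (h 3))

lemma ln_iff [CharZero k] {φ χ : Flg Ω Q} : Ln Sb φ χ ↔ χ.1.1 = φ.1.1 := by
  refine ⟨fun h => h.elim (fun e => by rw [e]) fun e => e.1.symm, fun h => ?_⟩
  by_cases e : φ.1.2 = χ.1.2
  exacts [Or.inl (flg_ext h e.symm), Or.inr ⟨h.symm, e⟩]

lemma fix_of_pos [CharZero k] {φ : Flg Ω Q} {σ : Ω ≃ₐ[k] Ω} (h1 : σ ∈ G (Fd k φ.1.1))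
    (h2 : σ (pos φ.1.1 φ.1.2) = pos φ.1.1 φ.1.2) : σ • φ = φ := by
  refine flg_ext (mem_G_Fd'.1 h1) ?_
  rw [smul_2]
  conv_lhs => rw [← (flg_lk φ).pt_eq, pt_map, mem_G_Fd'.1 h1, h2, (flg_lk φ).pt_eq]

end Ivrii.Cub

namespace Ivrii

open Cub

theorem cub {k Ω : Type} [Field k] [Field Ω] [Algebra k Ω] [IsAlgClosed k] [IsAlgClosed Ω]
    [CharZero k] (td : TD2 k Ω) (ι : ℝ →+* k) {τ : k →+* k} (hτ : ∀ a, τ (τ a) = a)
    (mon : MON k Ω) (pcl : PCL τ Ω) : CUB τ Ω := by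
  classical
  intro ch Q X hN hd hQ hX hodd n hn m hm hm0 ⟨ρ, hρ, eρ⟩
  have mir : Mir τ Q := hQ 1 le_rfl (by omega) ▸ ch.mir 1 le_rfl (by omega)
  have T := tr_flg mon mir hd td ι hτ
  have lk : ∀ j, j < ch.N → Lk Q (ch.l (j + 1)) (ch.A (j + 1)) (ch.l j) := fun j h =>
    hQ (j + 1) (by omega) h ▸ (ch.lk j h).symm
  obtain ⟨γ, hγ⟩ : ∃ γ : ℕ → Flg Ω Q, ∀ j, j < ch.N →
      (γ (j + 1)).1 = (ch.l (j + 1), ch.A (j + 1)) :=
    ⟨fun j => if h : j - 1 < ch.N then ⟨(_, _), _, lk (j - 1) h⟩ else ⟨(_, _), _, lk 0 (by omega)⟩,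
      fun j h => by simp [h]⟩
  have hγ' : ∀ j, j < ch.N → (fi (γ (j + 1))).1 = (ch.l j, ch.A (j + 1)) := fun j h => by
    rw [fi_eq (l' := ch.l j) (by rw [hγ j h]; exact lk j h), hγ j h]
  have hγN : (γ ch.N).1.1 = ch.l ch.N := by
    have := hγ (ch.N - 1) (by omega)
    rw [show ch.N - 1 + 1 = ch.N by omega] at this
    rw [this]
  have hsq : ∀ y : Ω, ∃ r, r ^ 2 = y := fun y => IsAlgClosed.exists_pow_nat_eq y two_pos
  obtain ⟨μ, hμ⟩ := hsq m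
  have μ0 : μ ≠ 0 := fun e => hm0 (by rw [← hμ, e]; simp)
  let nv : Flg Ω Q → Ω := fun φ => ev φ.1.1 n
  have hnv : ∀ (g : Ω ≃ₐ[k] Ω) φ, nv (g • φ) = g • nv φ := fun g φ => (ev_map g φ.1.1 n).symm
  have ln : ∀ g : Ω ≃ₐ[k] Ω, Ln Sb (γ ch.N) (g • γ ch.N) ↔ g ∈ G (Fd k (ch.l ch.N)) := fun g => by
    rw [ln_iff, mem_G_Fd', smul_1, hγN]
  have fin : {y : Ω | ∃ χ, TT fi Sb ch.N (γ ch.N) χ ∧ ((∃ i, y = co χ i) ∨ y ^ 2 = nv χ)}.Finite := by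
    refine ((T.tt_fin ch.N (γ ch.N)).biUnion fun χ _ => (Set.finite_range (co χ)).union
      (Set.toFinite {(hsq (nv χ)).choose, -(hsq (nv χ)).choose})).subset ?_
    rintro y ⟨χ, h1, h2⟩
    exact Set.mem_biUnion h1 (h2.imp (fun ⟨i, h⟩ => ⟨i, h.symm⟩) fun h =>
      sq_eq_sq_iff_eq_or_eq_neg.1 (h.trans (hsq (nv χ)).choose_spec.symm))
  have agr : ∀ g g' : Ω ≃ₐ[k] Ω, Agr fi Sb nv ch.N (γ ch.N) g g' ↔
      ∀ y ∈ fin.toFinset, g y = g' y := fun g g' => by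
    simp only [Set.Finite.mem_toFinset, Set.mem_ofPred_eq]
    refine ⟨?_, fun h χ hχ => ⟨co_ext fun i => ?_, fun y hy => h y ⟨χ, hχ, Or.inr hy⟩⟩⟩
    · rintro h y ⟨χ, h1, ⟨i, rfl⟩ | h2⟩
      · rw [← co_smul, ← co_smul, (h χ h1).1]
      · exact (h χ h1).2 y h2
    · rw [co_smul, co_smul]; exact h _ ⟨χ, hχ, Or.inl ⟨i, rfl⟩⟩
  have two : TwoSet (Fd k (ch.l ch.N)) (Rts Q (ch.l ch.N)) fin.toFinset := by
    refine ⟨fun σ hσ y hy => ?_, ch.N + 1, fun σ hσ h => (agr _ _).1 (T.tt_two hnv (fun χ hχ => ?_) _)⟩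
    · simp only [Set.Finite.mem_toFinset, Set.mem_ofPred_eq] at hy ⊢
      obtain ⟨χ, h1, h2⟩ := hy
      exact ⟨σ • χ, T.tt_smul ((ln σ).2 hσ) h1, h2.imp (fun ⟨i, h⟩ => ⟨i, by rw [co_smul, h]⟩)
        fun h => by rw [hnv, ← h, ← map_pow]; rfl⟩
    · have e := (ln_iff.1 hχ).trans hγN
      exact fix_of_pos (e ▸ hσ) (h _ (e ▸ pos_rts mon mir χ))
  obtain ⟨b, hb, r, hr, hfix⟩ := T.run hnv (fun φ => (flg_lk φ).gen.ev_ne hn) hsq hN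
    (γ := γ) (fun j h1 h2 => by
      obtain ⟨j, rfl⟩ : ∃ i, j = i + 1 := ⟨j - 1, by omega⟩
      rw [Sb, hγ j (by omega), hγ' _ h2]
      exact ⟨rfl, ch.ne _ h1 h2⟩)
    (H := G X ⊓ MulAction.stabilizer _ μ) (fun g hg h3 => by
      have hg' := (ln g).1 hg
      obtain ⟨σ, s1, s2⟩ := hodd _ two g hg' ((agr _ _).1 h3)
      refine ⟨σ ^ 4, ⟨pow_mem s1 4, ?_⟩, (agr _ _).2 fun y hy => ?_⟩
      · rw [show 4 = 2 * 2 from rfl, pow_mul]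
        refine pow_mem ?_ 2
        change σ (σ μ) = μ
        rcases sq_pm (hμ ▸ hm) s1 with e | e
        · rw [e, e]
        · rw [e, map_neg, e, neg_neg]
      · have y1 := two.stab g hg' y hy
        have y2 := two.stab g hg' _ y1
        have y3 := two.stab g hg' _ y2
        change σ (σ (σ (σ y))) = g y
        rw [s2 y hy, s2 _ y1, s2 _ y2, s2 _ y3]
        exact (agr _ _).1 h3 _ y1)
    (s := ρ / μ) (by
      rw [div_pow, ← eρ, hμ, mul_div_cancel_right₀ _ hm0]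
      simp only [nv, hγ' 0 (by omega)]) (fun h hh hj => by
      have h1 : h ρ = ρ := by
        refine G_fix (mem_G_sup.2 ⟨hh.1, mem_G_le.2 (iSup₂_le fun j hj' => mem_G_le.1 ?_)⟩) hρ
        rw [mem_G_Fd']
        cases j with
        | zero =>
          have := congrArg (fun φ : Flg Ω Q => φ.1.1) (T.fix_i' (hj 1 le_rfl (by omega)))
          simpa only [smul_1, hγ' 0 (by omega)] using this
        | succ j =>
          have := congrArg (fun φ : Flg Ω Q => φ.1.1) (hj (j + 1) (by omega) hj'.2)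
          simpa only [smul_1, hγ j hj'.2] using this
      have h2 : h μ = μ := hh.2
      change h (ρ / μ) = ρ / μ
      rw [map_div₀, h1, h2])
  have e1 := (flg_lk (γ 1)).rfx_eq
  have e2 := (flg_lk b).rfx_eq
  rw [← hb.1] at e2
  refine pcl Q n 1 (γ 1).1.1 (pos (γ 1).1.1 (γ 1).1.2) (pos (γ 1).1.1 b.1.2) mir hd.ge hn
    one_ne_zero (fun π h => absurd h (not_oddP_one π)) (flg_lk _).gen (pos_rts mon mir _)
    (hb.1 ▸ pos_rts mon mir b) (fun e => hb.2 (pos_inj hb.1 e)) (e1 ▸ (flg_lk _).gen')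
    (by rw [e2, hb.1]; exact (flg_lk b).gen') ⟨r, fixG fun σ hσ => ?_, ?_⟩
  · obtain ⟨s1, s2⟩ := mem_G_sup.1 hσ
    rw [mem_G_adjoin] at s2
    exact hfix σ (fix_of_pos s1 (s2 _ (by simp)))
      (fix_of_pos (hb.1 ▸ s1) (hb.1 ▸ s2 _ (by simp)))
  · rw [hr, e1, e2, map_one, mul_one]
    simp only [nv, fi, hb.1]

end Ivrii
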