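import Pool.Agent.P.MP_7a8567_an.Cub.Tree

set_option autoImplicit false

/-! Statement R for a run on one cubic, in abstract form. -/

namespace Ivrii.Cub

variable {Γ X Ω : Type} [Group Γ] [MulAction Γ X] [Field Ω] [MulSemiringAction Γ Ω]

/-- flags on the same line -/
def Ln (S : X → X → Prop) (φ χ : X) : Prop := χ = φ ∨ S φ χ

/-- the tree of depth `N` over the line of `φ` -/
def TT (i : X → X) (S : X → X → Prop) (N : ℕ) (φ χ : X) : Prop :=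
  ∃ χ0, Ln S φ χ0 ∧ ∃ m ≤ N, χ ∈ Lev i S m χ0

/-- `g` and `g'` agree on the tree and on the square roots of the values -/
def Agr (i : X → X) (S : X → X → Prop) (nv : X → Ω) (N : ℕ) (φ : X) (g g' : Γ) : Prop :=
  ∀ χ, TT i S N φ χ → g • χ = g' • χ ∧ ∀ y : Ω, y ^ 2 = nv χ → g • y = g' • y

variable (Γ) in
/-- the product of the two values is a square over the branch of depth `L` -/
def PP (i : X → X) (S : X → X → Prop) (nv : X → Ω) (L : ℕ) (φ : X) : Prop :=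
  ∀ a b, S φ a → S φ b → a ≠ b → ∀ r : Ω, r ^ 2 = nv (i a) * nv (i b) → ∀ g : Γ, g • a = a →
    g • b = b → (∀ m ≤ L, ∀ χ ∈ Lev i S m φ, g • χ = χ) → g • r = r

variable {i : X → X} {S : X → X → Prop} {nv : X → Ω}

lemma smul_sq {g : Γ} {y : Ω} (h : g • y ^ 2 = y ^ 2) : g • y = y ∨ g • y = -y :=
  sq_eq_sq_iff_eq_or_eq_neg.1 (by rwa [← smul_pow'])

namespace Tr

variable (T : Tr Γ i S)
include T

lemma ln_symm {a b : X} (h : Ln S a b) : Ln S b a := h.imp Eq.symm (T.symm _ _)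

lemma ln_trans {a b c : X} (h : Ln S a b) (h' : Ln S b c) : Ln S a c := by
  rcases h with rfl | h
  · exact h'
  rcases h' with rfl | h'
  · exact Or.inr h
  by_cases e : a = c
  · exact Or.inl e.symm
  · exact Or.inr (T.tri (T.symm _ _ h) h' e)

lemma ln_smul (g : Γ) {a b : X} (h : Ln S a b) : Ln S (g • a) (g • b) :=
  h.imp (congrArg _) (T.sg g _ _)

lemma ln_inv {g : Γ} {φ : X} (h : Ln S φ (g • φ)) : Ln S φ (g⁻¹ • φ) := by
  have := T.ln_smul g⁻¹ h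
  rw [inv_smul_smul] at this
  exact T.ln_symm this

lemma ln_mul {g g' : Γ} {φ : X} (h : Ln S φ (g • φ)) (h' : Ln S φ (g' • φ)) :
    Ln S φ ((g * g') • φ) := by
  rw [mul_smul]; exact T.ln_trans h (T.ln_smul g h')

lemma tt_smul {g : Γ} {N : ℕ} {φ χ : X} (h : Ln S φ (g • φ)) (h' : TT i S N φ χ) :
    TT i S N φ (g • χ) := by
  obtain ⟨χ0, h1, m, hm, h2⟩ := h'
  exact ⟨g • χ0, T.ln_trans h (T.ln_smul g h1), m, hm, T.lev_smul g h2⟩

lemma tt_fin (N : ℕ) (φ : X) : {χ | TT i S N φ χ}.Finite := by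
  refine (((T.sib_fin φ).insert φ).biUnion fun χ0 _ =>
    (Set.finite_Iic N).biUnion fun m _ => T.lev_fin m χ0).subset ?_
  rintro χ ⟨χ0, h1, m, hm, h2⟩
  exact Set.mem_biUnion h1 (Set.mem_biUnion hm h2)

variable (hnv : ∀ (g : Γ) φ, nv (g • φ) = g • nv φ)
include hnv

lemma tt_two {g : Γ} {φ : X} (h : ∀ χ, Ln S φ χ → g • χ = χ) (N : ℕ) :
    Agr i S nv N φ (g ^ 2 ^ (N + 1)) 1 := by
  rintro χ ⟨χ0, h1, m, hm, h2⟩
  have h3 := T.two_pow (h χ0 h1) N m hm χ h2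
  rw [pow_succ, pow_mul]
  refine ⟨by rw [one_smul]; exact pow_fix h3 2, fun y hy => ?_⟩
  rw [sq, mul_smul, one_smul]
  rcases smul_sq (g := g ^ 2 ^ N) (y := y) (by rw [hy, ← hnv, h3]) with e | e
  · rw [e, e]
  · rw [e, smul_neg, e, neg_neg]

lemma agr_conj {c v : Γ} {N : ℕ} {φ : X} (hc : Agr i S nv N φ (c ^ 3) 1) (hv : Ln S φ (v • φ)) :
    Agr i S nv N φ ((v * c * v⁻¹) ^ 3) 1 := by
  intro χ hχ
  obtain ⟨h1, h2⟩ := hc _ (T.tt_smul (T.ln_inv hv) hχ)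
  rw [conj_pow]
  refine ⟨by rw [mul_smul, mul_smul, h1]; simp, fun y hy => ?_⟩
  rw [mul_smul, mul_smul, h2 _ (by rw [hnv, ← hy, smul_pow'])]; simp

omit T hnv in
lemma agr_inv {c : Γ} {N : ℕ} {φ : X} (hc : Agr i S nv N φ (c ^ 3) 1) :
    Agr i S nv N φ (c⁻¹ ^ 3) 1 := by
  intro χ hχ
  obtain ⟨h1, h2⟩ := hc χ hχ
  rw [inv_pow]
  exact ⟨inv_smul_eq_iff.2 (by simpa using h1.symm),
    fun y hy => inv_smul_eq_iff.2 (by simpa using (h2 y hy).symm)⟩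

lemma pp_smul {L : ℕ} {φ : X} (h : PP Γ i S nv L φ) (σ : Γ) : PP Γ i S nv L (σ • φ) := by
  intro a b ha hb hab r hr g h1 h2 h3
  have k : ∀ c, S (σ • φ) c → S φ (σ⁻¹ • c) := fun c hc => by simpa using T.sg σ⁻¹ _ _ hc
  have := h _ _ (k a ha) (k b hb) (fun e => hab (smul_left_cancel _ e)) (σ⁻¹ • r)
    (by rw [T.ig, T.ig, hnv, hnv, ← smul_mul', ← hr, smul_pow']) (σ⁻¹ * g * σ)
    (by simp [mul_smul, h1]) (by simp [mul_smul, h2]) fun m hm χ hχ => by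
      rw [mul_smul, mul_smul, h3 m hm _ (T.lev_smul σ hχ), inv_smul_smul]
  simpa [mul_smul] using this

lemma c3c (h0 : ∀ φ, nv φ ≠ 0) (hsq : ∀ y : Ω, ∃ r, r ^ 2 = y) {L : ℕ} {φ a b : X}
    (h : PP Γ i S nv L φ) (ha : S φ a) (hb : S φ b) (hab : a ≠ b) {r : Ω}
    (hr : r ^ 2 = nv (i a) * nv (i b)) {g : Γ} (ga : g • a = a) (gb : g • b = b) : g • r = r := by
  have n1 : a ≠ φ := fun e => T.irr φ (e ▸ ha)
  have n2 : b ≠ φ := fun e => T.irr φ (e ▸ hb)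
  have s1 := T.tri ha hb hab
  have gφ : g • φ = φ := by
    rcases T.act ga s1 (T.symm _ _ ha) n2 with e | e
    exacts [e.2, absurd (gb.symm.trans e.1) n2]
  have pa : PP Γ i S nv L a := by
    obtain ⟨σ, -, -, -, e⟩ := T.swap (T.symm _ _ s1) (T.symm _ _ hb) n1
    exact e ▸ T.pp_smul hnv h σ
  have pb : PP Γ i S nv L b := by
    obtain ⟨σ, -, -, -, e⟩ := T.swap s1 (T.symm _ _ ha) n2
    exact e ▸ T.pp_smul hnv h σ
  obtain ⟨g', k1, k2⟩ := T.split gφ L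
  have d0 : Desc i S (i φ) φ := by simpa [T.ii] using desc_self (i := i) (S := S) (i φ)
  have da := T.desc_step d0 ha
  have db := T.desc_step d0 hb
  have fa := T.fix_i (k1 _ da)
  have fb := T.fix_i (k1 _ db)
  obtain ⟨r2, hr2⟩ := hsq (nv (i b) * nv (i φ))
  have z2 : r2 ≠ 0 := fun e => mul_ne_zero (h0 _) (h0 _) (by rw [← hr2, e]; simp)
  have e2 := pa b φ s1 (T.symm _ _ ha) n2 r2 hr2 g' fb (k1 _ d0)
    fun m _ χ hχ => k1 _ (T.desc_trans da ⟨m, hχ⟩)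
  have e3 := pb a φ (T.symm _ _ s1) (T.symm _ _ hb) n1 (r * r2 / nv (i b))
    (by have := h0 (i b); rw [div_pow, mul_pow, hr, hr2]; field_simp) g' fa (k1 _ d0)
    fun m _ χ hχ => k1 _ (T.desc_trans db ⟨m, hχ⟩)
  have e4 : g' • r = r := by
    rw [div_eq_mul_inv, smul_mul', smul_mul', smul_inv'', e2, ← hnv, k1 _ db] at e3
    exact mul_right_cancel₀ z2 (mul_right_cancel₀ (inv_ne_zero (h0 _)) e3)
  have e5 := h a b ha hb hab r hr (g'⁻¹ * g) (by rw [mul_smul, ga, inv_smul_eq_iff, fa])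
    (by rw [mul_smul, gb, inv_smul_eq_iff, fb])
    fun m hm χ hχ => by rw [mul_smul, inv_smul_eq_iff, k2 m hm χ hχ]
  rw [mul_smul, inv_smul_eq_iff] at e5
  rw [e5, e4]

section run

variable {N : ℕ} {φ : X} {H : Subgroup Γ}
  (hodd : ∀ g : Γ, Ln S φ (g • φ) → Agr i S nv N φ (g ^ 3) 1 → ∃ h ∈ H, Agr i S nv N φ h g)
include hodd

lemma move (hN : 1 ≤ N) {γ : ℕ → X} {s : Ω} (h1 : ∀ j, 1 ≤ j → j ≤ N → TT i S N φ (i (γ j)))
    (h2 : s ^ 2 = nv (i (γ 1)))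
    (h3 : ∀ h ∈ H, (∀ j, 1 ≤ j → j ≤ N → h • γ j = γ j) → h • s = s) {c : Γ}
    (hc : Ln S φ (c • φ)) (hc' : Agr i S nv N φ (c ^ 3) 1) :
    (∀ h ∈ H, (∀ j, 1 ≤ j → j ≤ N → h • c • γ j = c • γ j) → h • c • s = c • s) ∧
    ∀ v : Γ, Ln S φ (v • φ) → (∀ j, 1 ≤ j → j ≤ N → v • γ j = γ j) →
      (∀ j, 1 ≤ j → j ≤ N → v • c • γ j = c • γ j) → v • (s * c • s) = s * c • s := by
  have key : ∀ {g g' : Γ}, Agr i S nv N φ g g' →
      (∀ j, 1 ≤ j → j ≤ N → g • γ j = g' • γ j) ∧ g • s = g' • s := fun {g g'} hg =>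
    ⟨fun j a b => by
      have := congrArg i (hg _ (h1 j a b)).1
      rwa [T.ig, T.ig, T.ii] at this, (hg _ (h1 1 le_rfl hN)).2 s h2⟩
  obtain ⟨h0, m0, a0⟩ := hodd c hc hc'
  obtain ⟨p0, q0⟩ := key a0
  refine ⟨fun h hh k => ?_, fun v hv k k' => ?_⟩
  · have := h3 (h0⁻¹ * h * h0) (mul_mem (mul_mem (inv_mem m0) hh) m0) fun j a b => by
      rw [mul_smul, mul_smul, inv_smul_eq_iff, p0 j a b, k j a b]
    rwa [mul_smul, mul_smul, inv_smul_eq_iff, q0] at this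
  · obtain ⟨h1, m1, a1⟩ := hodd _ (T.ln_mul (T.ln_mul hv hc) (T.ln_inv hv)) (T.agr_conj hnv hc' hv)
    obtain ⟨p1, q1⟩ := key a1
    have := h3 (h0⁻¹ * h1) (mul_mem (inv_mem m0) m1) fun j a b => by
      rw [mul_smul, inv_smul_eq_iff, p0 j a b, p1 j a b, mul_smul, mul_smul,
        inv_smul_eq_iff.2 (k j a b).symm, k' j a b]
    rw [mul_smul, inv_smul_eq_iff, q0, q1, mul_smul, mul_smul] at this
    rw [smul_mul']
    rcases smul_sq (g := v) (y := s) (by rw [h2, ← hnv, T.fix_i' (k 1 le_rfl hN)]) with e | e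
    · rw [inv_smul_eq_iff.2 e.symm] at this
      rw [e, this]
    · rw [show v⁻¹ • s = -s by rw [inv_smul_eq_iff, smul_neg, e, neg_neg], smul_neg, smul_neg,
        neg_eq_iff_eq_neg] at this
      rw [e, this, neg_mul_neg]

end run

/-- the abstract form of statement R for a cubic run -/
theorem run (h0 : ∀ φ, nv φ ≠ 0) (hsq : ∀ y : Ω, ∃ r, r ^ 2 = y) {N : ℕ} (hN : 2 ≤ N)
    {γ : ℕ → X} (hγ : ∀ j, 1 ≤ j → j < N → S (γ j) (i (γ (j + 1)))) {H : Subgroup Γ}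
    (hodd : ∀ g : Γ, Ln S (γ N) (g • γ N) → Agr i S nv N (γ N) (g ^ 3) 1 →
      ∃ h ∈ H, Agr i S nv N (γ N) h g) {s : Ω} (hs : s ^ 2 = nv (i (γ 1)))
    (hH : ∀ h ∈ H, (∀ j, 1 ≤ j → j ≤ N → h • γ j = γ j) → h • s = s) :
    ∃ b, S (γ 1) b ∧ ∃ r : Ω, r ^ 2 = nv (i (γ 1)) * nv (i b) ∧
      ∀ g : Γ, g • γ 1 = γ 1 → g • b = b → g • r = r := by
  have bk : ∀ d j, j + d = N → 1 ≤ j → i (γ j) ∈ Lev i S d (γ N) := by
    intro d
    induction d with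
    | zero => rintro j rfl _; rfl
    | succ d ih =>
      intro j hj h1
      exact T.lev_step (ih (j + 1) (by omega) (by omega)) (T.symm _ _ (hγ j h1 (by omega)))
  have fw : ∀ d, 2 + d ≤ N → γ (2 + d) ∈ Lev i S d (i (γ 2)) := by
    intro d
    induction d with
    | zero => exact fun _ => (T.ii _).symm
    | succ d ih => exact fun h => ⟨_, ih (by omega), hγ _ (by omega) (by omega)⟩
  have fw' : ∀ j, 2 ≤ j → j ≤ N → γ j ∈ Lev i S (j - 2) (i (γ 2)) := fun j a b => by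
    have := fw (j - 2) (by omega)
    rwa [show 2 + (j - 2) = j by omega] at this
  have t1 : ∀ j, 1 ≤ j → j ≤ N → TT i S N (γ N) (i (γ j)) := fun j a b =>
    ⟨_, Or.inl rfl, N - j, by omega, bk _ j (by omega) a⟩
  have ha := T.symm _ _ (hγ 1 le_rfl (by omega))
  obtain ⟨b, hb, hab⟩ := T.third ha
  obtain ⟨r, hr⟩ := hsq (nv (i (γ 1)) * nv (i b))
  refine ⟨b, T.tri ha hb hab, r, hr, fun g => T.c3c hnv h0 hsq (L := 2 * N) ?_ ha hb hab hr⟩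
  obtain ⟨c, ⟨c1, c2⟩, c3⟩ := T.cyc (γ N)
  have c4 : Agr i S nv N (γ N) ((c ^ 2 ^ (N + 1)) ^ 3) 1 := by
    rw [← pow_mul, mul_comm, pow_mul]
    exact T.tt_two hnv (fun χ hχ => hχ.elim (fun e => e ▸ c1) (c2 χ)) N
  have c5 := c3 (N + 1)
  generalize c ^ 2 ^ (N + 1) = h at c4 c5
  have l2 : ∀ j, 1 ≤ j → j ≤ N → ∃ m ≤ 2 * N, i (h • γ j) ∈ Lev i S m (i (γ 2)) := fun j a b =>
    ⟨N - 2 + 1 + (N - j), by omega, T.lev_trans (T.lev_step (fw' N hN le_rfl) c5) (by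
      rw [T.ii, T.ig]; exact T.lev_smul h (bk _ j (by omega) a))⟩
  obtain ⟨σ, s1, -, s2, -⟩ := T.swap ha hb hab
  have s3 : ∀ j, 1 ≤ j → j ≤ N → σ • h • γ j = h • γ j := fun j a b =>
    (l2 j a b).elim fun m hm => T.fix_i (s1 _ ⟨m, hm.2⟩)
  have s4 : ∀ j, 2 ≤ j → j ≤ N → σ • γ j = γ j := fun j a b => s1 _ ⟨_, fw' j a b⟩
  have s5 : ∀ j, 1 ≤ j → j ≤ N → (σ * h⁻¹ * σ⁻¹) • h • γ j = σ • γ j := fun j a b => by
    rw [mul_smul, mul_smul, inv_smul_eq_iff.2 (s3 j a b).symm, inv_smul_smul]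
  have lσ : Ln S (γ N) (σ • γ N) := Or.inl (s4 N hN le_rfl)
  obtain ⟨m1, m2⟩ := T.move hnv hodd (by omega) t1 hs hH (Or.inr c5) c4
  have hs2 : (h • s) ^ 2 = nv (i (h • γ 1)) := by rw [← smul_pow', hs, T.ig, hnv]
  obtain ⟨-, m3⟩ := T.move hnv hodd (γ := fun j => h • γ j) (s := h • s) (by omega)
    (fun j a b => by rw [T.ig]; exact T.tt_smul (Or.inr c5) (t1 j a b)) hs2 m1
    (T.ln_mul (T.ln_mul lσ (T.ln_inv (Or.inr c5))) (T.ln_inv lσ))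
    (T.agr_conj hnv (agr_inv c4) lσ)
  have hs3 : ((σ * h⁻¹ * σ⁻¹) • h • s) ^ 2 = nv (i b) := by
    rw [← smul_pow', hs2, ← hnv, ← T.ig, s5 1 le_rfl (by omega), s2]
  have main : ∀ v : Γ, v • γ 1 = γ 1 → v • b = b →
      (∀ m ≤ 2 * N, ∀ χ ∈ Lev i S m (i (γ 2)), v • χ = χ) → ∀ r : Ω,
      r ^ 2 = nv (i (γ 1)) * nv (i b) → v • r = r := by
    intro v v1 v2 v3 r hr
    have v4 : ∀ j, 1 ≤ j → j ≤ N → v • γ j = γ j := fun j a b => by
      rcases a.eq_or_lt with rfl | a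
      exacts [v1, v3 _ (by omega) _ (fw' j a b)]
    have v5 : ∀ j, 1 ≤ j → j ≤ N → v • h • γ j = h • γ j := fun j a b =>
      (l2 j a b).elim fun m hm => T.fix_i (v3 m hm.1 _ hm.2)
    have lv : Ln S (γ N) (v • γ N) := Or.inl (v4 N (by omega) le_rfl)
    have e1 := m2 v lv v4 v5
    have e2 := m3 v lv v5 fun j a b => by
      rw [s5 j a b]
      rcases a.eq_or_lt with rfl | a'
      · rw [s2, v2]
      · rw [s4 j a' b, v4 j a b]
    have e3 : v • (h • s) ^ 2 = (h • s) ^ 2 := by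
      rw [hs2, ← hnv, T.fix_i' (v5 1 le_rfl (by omega))]
    generalize (σ * h⁻¹ * σ⁻¹) • h • s = s' at e2 hs3
    have z : (h • s) ^ 2 ≠ 0 := hs2 ▸ h0 _
    have e4 : v • (s * s') = s * s' := by
      refine mul_right_cancel₀ z ?_
      calc v • (s * s') * (h • s) ^ 2 = v • (s * h • s) * v • (h • s * s') := by
            rw [← e3, ← smul_mul', ← smul_mul']; congr 1; ring
        _ = _ := by rw [e1, e2]; ring
    rcases sq_eq_sq_iff_eq_or_eq_neg.1 (show r ^ 2 = (s * s') ^ 2 by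
      rw [hr, mul_pow, hs, hs3]) with rfl | rfl
    · exact e4
    · rw [smul_neg, e4]
  clear hr
  intro a' b' ha' hb' hab' r hr v v1 v2 v3
  rcases T.sib_cases ha hb hab ha' with rfl | rfl <;> rcases T.sib_cases ha hb hab hb' with e | e
  · exact absurd e.symm hab'
  · subst e; exact main v v1 v2 v3 r hr
  · subst e; exact main v v2 v1 v3 r (by rw [hr, mul_comm])
  · exact absurd e.symm hab'

end Tr

end Ivrii.Cub
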