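import Pool.Agent.P.MP_7a8567_an.Cub.Model
import Pool.Agent.P.MP_7a8567_an.Cub.Abs

set_option autoImplicit false

/-! Generic flags on a cubic form a tree. -/

namespace Ivrii.Cub

open S3

variable {k Ω : Type} [Field k] [Field Ω] [Algebra k Ω] {Q : R2 k}

lemma lk_map {M : Type} [Field M] [Algebra k M] {F : Type} [FunLike F Ω M] [AlgHomClass F k Ω M]
    (ψ : F) {l A l' : Ω × Ω} (h : Lk Q l A l') :
    Lk Q (Prod.map ψ ψ l) (Prod.map ψ ψ A) (Prod.map ψ ψ l') :=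
  ⟨h.gen.map ψ, h.gen'.map ψ, by simpa [On] using congrArg ψ h.on,
    by simpa [On] using congrArg ψ h.on', by rw [← ev_map, h.zero, map_zero],
    by rw [← qv_map, ← h.law, map_mul]; rfl⟩

lemma thru_eq {l A l' : Ω × Ω} (h : Lk Q l A l') : thru A (qv Q A / l.1) = l' := by
  rw [← h.law, mul_div_cancel_left₀ _ (t_ne_of_gen h.gen), thru]
  exact Prod.ext rfl h.on'.symm

lemma exists_emb (td : TD2 k Ω) {l : Ω × Ω} (hl : Gen k l) {M : Type} [Field M] [IsAlgClosed M]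
    [Algebra k M] {l' : M × M} (hl' : Gen k l') : ∃ E : Ω →ₐ[k] M, Prod.map E E l = l' := by
  let _ : Algebra (R2 k) Ω := (ev l : R2 k →ₐ[k] Ω).toRingHom.toAlgebra
  let _ : Algebra (R2 k) M := (ev l' : R2 k →ₐ[k] M).toRingHom.toAlgebra
  have : FaithfulSMul (R2 k) Ω := (faithfulSMul_iff_algebraMap_injective _ _).2 hl
  have : FaithfulSMul (R2 k) M := (faithfulSMul_iff_algebraMap_injective _ _).2 hl'
  have hr : Set.range ![l.1, l.2] = {l.1, l.2} := by simp [Matrix.range_cons, Set.pair_comm]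
  have a3 : Algebra.IsAlgebraic (ev l : R2 k →ₐ[k] Ω).range Ω := by
    rw [ev, ← Algebra.adjoin_range_eq_range_aeval, hr]
    exact IntermediateField.isAlgebraic_adjoin_iff_top.1 (td l hl)
  have : Algebra.IsAlgebraic (R2 k) Ω := Algebra.IsAlgebraic.of_ringHom_of_comp_eq
    (ev l : R2 k →ₐ[k] Ω).rangeRestrict (RingHom.id Ω) (AlgHom.rangeRestrict_surjective _)
    Function.injective_id rfl
  let E0 : Ω →ₐ[R2 k] M := IsAlgClosed.lift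
  have hE : ∀ n, E0 (ev l n) = ev l' n := E0.commutes
  exact ⟨{ E0.toRingHom with commutes' := fun c => by simp },
    Prod.ext (by simpa using hE (MvPolynomial.X 0)) (by simpa using hE (MvPolynomial.X 1))⟩

variable (Q Ω) in
/-- generic flags -/
def Flg : SubMulAction (Ω ≃ₐ[k] Ω) ((Ω × Ω) × (Ω × Ω)) where
  carrier := {φ | ∃ l', Lk Q φ.1 φ.2 l'}
  smul_mem' σ _ := fun ⟨_, h⟩ => ⟨_, lk_map σ h⟩

lemma flg_lk (φ : Flg Ω Q) : Lk Q φ.1.1 φ.1.2 (thru φ.1.2 (qv Q φ.1.2 / φ.1.1.1)) := by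
  obtain ⟨l', h⟩ := φ.2
  rwa [thru_eq h]

/-- reflection -/
noncomputable def fi (φ : Flg Ω Q) : Flg Ω Q :=
  ⟨(thru φ.1.2 (qv Q φ.1.2 / φ.1.1.1), φ.1.2), _, (flg_lk φ).symm⟩

lemma fi_eq {φ : Flg Ω Q} {l' : Ω × Ω} (h : Lk Q φ.1.1 φ.1.2 l') : (fi φ).1 = (l', φ.1.2) := by
  rw [← thru_eq h]; rfl

/-- siblings -/
def Sb (φ χ : Flg Ω Q) : Prop := φ.1.1 = χ.1.1 ∧ φ.1.2 ≠ χ.1.2

lemma smul_1 (σ : Ω ≃ₐ[k] Ω) (φ : Flg Ω Q) : (σ • φ).1.1 = Prod.map σ σ φ.1.1 := rfl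

lemma smul_2 (σ : Ω ≃ₐ[k] Ω) (φ : Flg Ω Q) : (σ • φ).1.2 = Prod.map σ σ φ.1.2 := rfl

lemma flg_ext {φ χ : Flg Ω Q} (h1 : φ.1.1 = χ.1.1) (h2 : φ.1.2 = χ.1.2) : φ = χ :=
  Subtype.ext (Prod.ext h1 h2)

lemma fi_fi (φ : Flg Ω Q) : fi (fi φ) = φ := Subtype.ext (fi_eq (φ := fi φ) (flg_lk φ).symm)

lemma fi_smul (σ : Ω ≃ₐ[k] Ω) (φ : Flg Ω Q) : fi (σ • φ) = σ • fi φ :=
  Subtype.ext (fi_eq (φ := σ • φ) (lk_map σ (flg_lk φ)))

lemma sb_smul (σ : Ω ≃ₐ[k] Ω) (φ χ : Flg Ω Q) (h : Sb φ χ) : Sb (σ • φ) (σ • χ) :=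
  ⟨congrArg (Prod.map σ σ) h.1, fun e => h.2 (σ.injective.prodMap σ.injective e)⟩

variable [CharZero k] {τ : k →+* k} (mon : MON k Ω) (hm : Mir τ Q) (hd : Q.totalDegree = 3)
include mon hm

lemma pos_rts (φ : Flg Ω Q) : pos φ.1.1 φ.1.2 ∈ Rts Q φ.1.1 :=
  (flg_lk φ).pos_mem fun e => by
    have := (mon Q _ hm.irr hm.deg (flg_lk φ).gen).1
    have h2 := hm.deg
    rw [e, Polynomial.natDegree_zero] at this
    omega

lemma exists_sib (φ : Flg Ω Q) {x : Ω} (hx : x ∈ Rts Q φ.1.1) :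
    ∃ σ : Ω ≃ₐ[k] Ω, (σ • φ).1.1 = φ.1.1 ∧ (σ • φ).1.2 = pt φ.1.1 x := by
  obtain ⟨σ, h1, h2⟩ := (mon Q _ hm.irr hm.deg (flg_lk φ).gen).2.2.move (pos_rts mon hm φ) hx
  refine ⟨σ, mem_G_Fd'.1 h1, ?_⟩
  rw [smul_2, ← h2]
  conv_lhs => rw [← (flg_lk φ).pt_eq, pt_map, mem_G_Fd'.1 h1]

omit mon hm in
lemma pos_inj {φ χ : Flg Ω Q} (h : φ.1.1 = χ.1.1) (e : pos φ.1.1 φ.1.2 = pos φ.1.1 χ.1.2) :
    φ.1.2 = χ.1.2 := by
  rw [← (flg_lk φ).pt_eq, e, h, (flg_lk χ).pt_eq]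

include hd in
lemma sb_two (φ : Flg Ω Q) : ∃ a b, a ≠ b ∧ Sb a b ∧ ∀ χ, Sb φ χ ↔ χ = a ∨ χ = b := by
  classical
  have g := (flg_lk φ).gen
  have ht := t_ne_of_gen g
  obtain ⟨x, y, hxy, e⟩ := Finset.card_eq_two.1
    (show ((Rts Q φ.1.1).erase (pos φ.1.1 φ.1.2)).card = 2 by
      rw [Finset.card_erase_of_mem (pos_rts mon hm φ), (mon Q _ hm.irr hm.deg g).2.1, hd])
  have hx := Finset.mem_erase.1 (show x ∈ _ by rw [e]; simp)
  have hy := Finset.mem_erase.1 (show y ∈ _ by rw [e]; simp)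
  obtain ⟨σ, a1, a2⟩ := exists_sib mon hm φ hx.2
  obtain ⟨ρ, b1, b2⟩ := exists_sib mon hm φ hy.2
  have n : (σ • φ).1.2 ≠ (ρ • φ).1.2 := fun h => hxy (by
    rw [← pos_pt (k := k) ht x, ← a2, h, b2, pos_pt (k := k) ht])
  refine ⟨σ • φ, ρ • φ, fun h => n (by rw [h]), ⟨a1.trans b1.symm, n⟩, fun χ => ⟨fun h => ?_, ?_⟩⟩
  · have h1 : pos φ.1.1 χ.1.2 ∈ (Rts Q φ.1.1).erase (pos φ.1.1 φ.1.2) :=
      Finset.mem_erase.2 ⟨fun e => h.2 (pos_inj h.1 e.symm), h.1 ▸ pos_rts mon hm χ⟩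
    have h2 : pt φ.1.1 (pos φ.1.1 χ.1.2) = χ.1.2 := h.1 ▸ (flg_lk χ).pt_eq
    rw [e, Finset.mem_insert, Finset.mem_singleton] at h1
    exact h1.imp (fun h3 => flg_ext (h.1.symm.trans a1.symm) (by rw [a2, ← h3, h2]))
      fun h3 => flg_ext (h.1.symm.trans b1.symm) (by rw [b2, ← h3, h2])
  · rintro (rfl | rfl)
    · exact ⟨a1.symm, fun h => hx.1 (by rw [h, a2, pos_pt (k := k) ht])⟩
    · exact ⟨b1.symm, fun h => hy.1 (by rw [h, b2, pos_pt (k := k) ht])⟩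

variable [IsAlgClosed k] [IsAlgClosed Ω]

include hd in
lemma flip_one (td : TD2 k Ω) (ι : ℝ →+* k) (hτ : ∀ a, τ (τ a) = a) (φ : Flg Ω Q) :
    ∃ ρ : Ω ≃ₐ[k] Ω, ∃ σ : Ω ≃ₐ[k] Ω, (∀ χ, Desc fi Sb (ρ • φ) χ → σ • χ = χ) ∧
      ∃ χ, Sb (ρ • φ) χ ∧ σ • χ ≠ χ := by
  classical
  have L := flg_lk φ
  have ht := t_ne_of_gen L.gen
  have hq : qv Q φ.1.2 ≠ 0 := L.law ▸ mul_ne_zero ht (t_ne_of_gen L.gen')
  have tr : Transcendental k φ.1.2.1 := by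
    refine (tr_both hm.irr hm.deg L.zero ?_).1
    by_contra h
    simp only [Transcendental, not_or, not_not] at h
    have h1 : IsAlgebraic (Algebra.adjoin k {φ.1.1.1}) φ.1.1.1 :=
      isAlgebraic_algebraMap (⟨_, Algebra.self_mem_adjoin_singleton k _⟩ :
        Algebra.adjoin k {φ.1.1.1})
    have inj := (algebraMap k (Algebra.adjoin k {φ.1.1.1})).injective
    refine not_gen_of_alg h1 ?_ L.gen
    rw [L.on, div_eq_mul_inv]
    exact ((h.1.extendScalars inj).mul h1.inv).sub ((h.2.extendScalars inj).mul h1)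
  obtain ⟨s, hs⟩ := IsAlgClosed.exists_pow_nat_eq (qv Q φ.1.2) two_pos
  obtain ⟨M, _, _, _, W, good, l, B, m1, m2, m3, m4, m5, m6, m7⟩ := model ι hτ hm hd L.zero tr
    (s := s) (fun e => hq (by rw [← hs, e]; simp)) L.Qz_ne hs
  obtain ⟨E, hE⟩ := exists_emb td L.gen m1
  have hi : Function.Injective (Prod.map E E) := E.injective.prodMap E.injective
  have on : ∀ χ : Flg Ω Q, χ.1.1 = φ.1.1 → On l (Prod.map E E χ.1.2) ∧
      ev (Prod.map E E χ.1.2) Q = 0 := fun χ h => by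
    have := lk_map E (flg_lk χ)
    rw [h, hE] at this
    exact ⟨this.on, this.zero⟩
  obtain ⟨x, hx, hB⟩ : ∃ x ∈ Rts Q φ.1.1, Prod.map E E (pt φ.1.1 x) = B := by
    by_contra hn
    have := m4 (insert B ((Rts Q φ.1.1).image fun x => Prod.map E E (pt φ.1.1 x))) fun A hA => by
      rcases Finset.mem_insert.1 hA with rfl | hA
      · exact ⟨m2, m3⟩
      · obtain ⟨x, hx, rfl⟩ := Finset.mem_image.1 hA
        obtain ⟨σ, a1, a2⟩ := exists_sib mon hm φ hx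
        exact a2 ▸ on _ a1
    rw [Finset.card_insert_of_notMem (by simpa using hn), Finset.card_image_of_injective _
      fun x y h => by rw [← pos_pt (k := k) ht x, hi h, pos_pt (k := k) ht],
      (mon Q _ hm.irr hm.deg L.gen).2.1] at this
    omega
  obtain ⟨ρ, a1, a2⟩ := exists_sib mon hm φ hx
  obtain ⟨a, b, -, -, h⟩ := sb_two mon hm hd (ρ • φ)
  have ha := (h a).2 (Or.inl rfl)
  have hW : a.1.2.2 ∉ W.comap E := m7 _ (on a (ha.1.symm.trans a1)).1 (on a (ha.1.symm.trans a1)).2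
    fun e => ha.2 (hi (by rw [e, a2, hB]))
  obtain ⟨σ, s1, s2⟩ : ∃ σ ∈ G (W.comap E), σ a.1.2.2 ≠ a.1.2.2 := by
    by_contra hn
    push Not at hn
    exact hW (fixG hn)
  refine ⟨ρ, σ, fun χ hχ => ?_, a, ha, fun e => s2 (congrArg (fun ψ : Flg Ω Q => ψ.1.2.2) e)⟩
  have key : good (E χ.1.1.1) (E χ.1.2.1) (E χ.1.2.2) := by
    refine desc_ind (good := fun χ : Flg Ω Q => good (E χ.1.1.1) (E χ.1.2.1) (E χ.1.2.2))
      fi_fi ?_ (fun ψ χ h1 h2 => ?_) hχ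
    · rw [← hB, ← a2, ← hE, ← a1, ← qv_map] at m5
      simpa [fi, thru] using m5
    · have t0 := t_ne_of_gen (flg_lk ψ).gen
      have e := on_param t0 (h2.1 ▸ (flg_lk χ).on) (flg_lk ψ).on
      have e' : Prod.map E E χ.1.2 = (E ψ.1.2.1 + E ψ.1.1.1 * E (ψ.1.1.1 * (χ.1.2.2 - ψ.1.2.2)),
          E ψ.1.2.2 + E (ψ.1.1.1 * (χ.1.2.2 - ψ.1.2.2)) / E ψ.1.1.1) := by
        conv_lhs => rw [e]
        simp only [Prod.map, map_add, map_mul, map_div₀]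
      have := (m6 _ _ _ h1).2.2.2 (lk_map E (flg_lk ψ)).zero (E (ψ.1.1.1 * (χ.1.2.2 - ψ.1.2.2)))
        (fun h => h2.2 (by rw [e, (map_eq_zero E).1 h]; simp))
        (e' ▸ (lk_map E (flg_lk χ)).zero)
      obtain ⟨e1, e2⟩ := Prod.ext_iff.1 e'
      dsimp only [Prod.map_fst, Prod.map_snd] at e1 e2
      rw [← e', ← qv_map, ← e1, ← e2, h2.1] at this
      simpa [fi, thru] using this
  obtain ⟨k1, k2, k3, -⟩ := m6 _ _ _ key
  have f1 := G_fix s1 (x := χ.1.1.1) k1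
  have f2 := G_fix s1 (x := χ.1.2.1) k2
  have f3 := G_fix s1 (x := χ.1.2.2) k3
  refine flg_ext (Prod.ext f1 ?_) (Prod.ext f2 f3)
  change σ χ.1.1.2 = χ.1.1.2
  rw [(flg_lk χ).on, map_sub, map_div₀, map_mul, f1, f2, f3]

include hd in
theorem tr_flg (td : TD2 k Ω) (ι : ℝ →+* k) (hτ : ∀ a, τ (τ a) = a) :
    Tr (Ω ≃ₐ[k] Ω) (fi (Q := Q) (Ω := Ω)) Sb where
  ii := fi_fi
  ig := fi_smul
  sg := sb_smul
  symm _ _ h := ⟨h.1.symm, h.2.symm⟩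
  irr _ h := h.2 rfl
  two := sb_two mon hm hd
  flip φ := by
    obtain ⟨ρ, σ, h1, χ, h2, h3⟩ := flip_one mon hm hd td ι hτ φ
    refine ⟨ρ⁻¹ * σ * ρ, fun ψ hψ => ?_, ρ⁻¹ • χ, by simpa using sb_smul ρ⁻¹ _ _ h2, fun e => h3 ?_⟩
    · rw [mul_smul, mul_smul, h1, inv_smul_smul]
      refine desc_ind (good := fun ψ => Desc fi Sb (ρ • φ) (ρ • ψ)) fi_fi ?_ (fun a b h h' => ?_) hψ
      · rw [← fi_smul]; exact desc_self _
      · obtain ⟨j, h⟩ := h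
        exact ⟨j + 1, _, h, by rw [fi_smul, fi_fi]; exact sb_smul ρ _ _ h'⟩
    · simpa [mul_smul] using e

end Ivrii.Cub
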