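import Pool.Agent.P.MP_7a8567_an.Cub.Ser
import Pool.Agent.P.MP_7a8567_an.Alg.Bas

set_option autoImplicit false

/-! A generic flag whose siblings are ramified while all its descendants are not. -/

namespace Ivrii.Cub

open Polynomial S3

variable {k : Type} [Field k]

lemma on_param {M : Type} [Field M] {l A B : M × M} (ht : l.1 ≠ 0) (hA : On l A) (hB : On l B) :
    A = (B.1 + l.1 * (l.1 * (A.2 - B.2)), B.2 + l.1 * (A.2 - B.2) / l.1) := by
  rw [On] at hA hB
  have := hA.symm.trans hB
  refine Prod.ext ?_ ?_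
  · field_simp at this
    linear_combination this
  · field_simp; ring

lemma on_add {M : Type} [Field M] {l B : M × M} (ht : l.1 ≠ 0) (hB : On l B) (u : M) :
    On l (B.1 + l.1 * u, B.2 + u / l.1) := by
  rw [On] at hB ⊢
  rw [hB]; field_simp; ring

theorem model [IsAlgClosed k] [CharZero k] {K : Type} [Field K] [IsAlgClosed K] [Algebra k K]
    (ι : ℝ →+* k) {τ : k →+* k} (hτ : ∀ a, τ (τ a) = a) {Q : R2 k} (hm : Mir τ Q)
    (hd : Q.totalDegree = 3) {z0 w0 s : K} (h0 : ev (z0, w0) Q = 0) (hz : Transcendental k z0)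
    (hs : s ≠ 0) (hQ : ev (z0, w0) (MvPolynomial.pderiv 0 Q) ≠ 0) (hq : s ^ 2 = qv Q (z0, w0)) :
    ∃ (M : Type) (_ : Field M) (_ : IsAlgClosed M) (_ : Algebra k M) (W : IntermediateField k M)
      (good : M → M → M → Prop) (l B : M × M), Gen k l ∧ On l B ∧ ev B Q = 0 ∧
      (∀ S : Finset (M × M), (∀ A ∈ S, On l A ∧ ev A Q = 0) → S.card ≤ 3) ∧
      good (qv Q B / l.1) B.1 B.2 ∧
      (∀ t z w, good t z w → t ∈ W ∧ z ∈ W ∧ w ∈ W ∧ (ev (z, w) Q = 0 → ∀ u ≠ 0,
        ev (z + t * u, w + u / t) Q = 0 →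
          good (qv Q (z + t * u, w + u / t) / t) (z + t * u) (w + u / t))) ∧
      ∀ A, On l A → ev A Q = 0 → A ≠ B → A.2 ∉ W := by
  classical
  have : CharZero K := charZero_of_injective_algebraMap (algebraMap k K).injective
  obtain ⟨c, -, hc⟩ := hm.real
  have hsq : s ^ 2 * NT.Qz Q z0 w0 = -NT.Qw Q z0 w0 := by
    rw [hq, qv]; exact div_mul_cancel₀ _ hQ
  obtain ⟨Good, hG, lc, uB, a0, a1, a2, nB⟩ := NT.nt ι τ hτ Q hm.irr hd c hc z0 w0 s h0
    (fun ⟨a, h⟩ => hz (h ▸ isAlgebraic_algebraMap a)) hs hsq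
  have hst : Transcendental k s := tr_of_not_mem fun a ha => by
    have d : ∀ i, (MvPolynomial.pderiv i Q).totalDegree ≤ 2 := fun i => by
      by_cases h : MvPolynomial.pderiv i Q = 0
      · simp [h]
      · have := totalDegree_pderiv_lt h; omega
    have g1 : MvPolynomial.C (a ^ 2) * MvPolynomial.pderiv 0 Q + MvPolynomial.pderiv 1 Q = 0 := by
      by_contra g
      have g2 := MvPolynomial.totalDegree_le_of_dvd_of_isDomain
        ((H1 hm.irr h0 (.inl hz) _).1 (by
          rw [map_add, map_mul, ev_C, map_pow, ← ha]; exact add_eq_zero_iff_eq_neg.2 hsq)) g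
      have g3 := (MvPolynomial.totalDegree_add _ _).trans (max_le
        ((MvPolynomial.totalDegree_mul (MvPolynomial.C (a ^ 2)) (MvPolynomial.pderiv 0 Q)).trans
          (by rw [MvPolynomial.totalDegree_C, zero_add]; exact d 0)) (d 1))
      omega
    obtain ⟨n1, -, n3⟩ := nB
    have g4 := congrArg (ev (z0 + s * uB, w0 + uB / s)) g1
    rw [map_add, map_mul, ev_C, map_pow, ← ha, map_zero] at g4
    have g5 : -NT.Qw Q (z0 + s * uB) (w0 + uB / s) / NT.Qz Q (z0 + s * uB) (w0 + uB / s) / s = s := by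
      rw [div_div, div_eq_iff (mul_ne_zero n1 hs)]
      exact (by linear_combination -g4 : -ev (z0 + s * uB, w0 + uB / s) (MvPolynomial.pderiv 1 Q) =
        s * (ev (z0 + s * uB, w0 + uB / s) (MvPolynomial.pderiv 0 Q) * s))
    rw [g5] at n3
    obtain ⟨-, -, lc', u1, u2, -, b1, b2, b3, b4, -⟩ := hG _ _ _ n3
    have b5 : ∀ u, u ≠ 0 → lc' * (u * (u - u1) * (u - u2)) = 0 → u = -uB := fun u h e => by
      rw [← b4, add_assoc, add_assoc, ← mul_add, ← add_div, a2] at e
      simpa [a0, h, add_eq_zero_iff_eq_neg'] using e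
    exact b3 ((b5 u1 b1 (by simp)).trans (b5 u2 b2 (by simp)).symm)
  let R := PowerSeries K
  let L := FractionRing R
  let M := AlgebraicClosure L
  let j : R →+* M := (algebraMap L M).comp (algebraMap R L)
  have hi : Function.Injective j := (algebraMap L M).injective.comp (IsFractionRing.injective R L)
  have hj : ∀ c, j (algebraMap k R c) = algebraMap k M c := fun c => by
    simp only [j, RingHom.comp_apply, ← IsScalarTower.algebraMap_apply]
  let W : IntermediateField k M := (IsScalarTower.toAlgHom k L M).fieldRange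
  have hW : ∀ a, j a ∈ W := fun a => ⟨algebraMap R L a, rfl⟩
  let t0 : R := PowerSeries.C s
  let t1 : R := PowerSeries.C s⁻¹
  let z : R := PowerSeries.C z0 + PowerSeries.C (s / 2) * PowerSeries.X
  let w : R := PowerSeries.C w0 - PowerSeries.C (s⁻¹ / 2) * PowerSeries.X
  have ht : t0 * t1 = 1 := by rw [← map_mul, mul_inv_cancel₀ hs, map_one]
  have r2 : j t1 = (j t0)⁻¹ := eq_inv_of_mul_eq_one_right (by rw [← map_mul, ht, map_one])
  have jt : j t0 ≠ 0 := left_ne_zero_of_mul_eq_one (by rw [← map_mul, ht, map_one])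
  have e := gl_rs Q z w ht (p := C lc * (X ^ 2 * (X - C uB))) fun u => by simp [z, w, t0, a2]
  have dg := (gl_deg Q z w t0 t1).trans hd.le
  obtain ⟨U, b1, c1⟩ := PX.hensel (gl Q z w t0 t1) (c := uB) (by simp [e]) (by simp [e, a0, a1])
  have g0 : gl Q z w t0 t1 ≠ 0 := fun h => by
    rw [h, Polynomial.map_zero] at e
    simpa [a0, X_sub_C_ne_zero] using e.symm
  let D : Derivation k R R := (PowerSeries.derivative K).restrictScalars k
  have hD : ∀ f, D f = PowerSeries.derivative K f := fun _ => rfl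
  let l : M × M := (j t0, j (z * t1 - w * t0))
  have o : On l (j z, j w) := by simp [On, l, r2, div_eq_mul_inv]
  have eB : (j (z + t0 * U), j (w + t1 * U)) = (j z + j t0 * j U, j w + j U / j t0) := by
    simp [r2, div_eq_inv_mul]
  refine ⟨M, inferInstance, inferInstance, inferInstance, W, Gd j Good, l,
    (j (z + t0 * U), j (w + t1 * U)), ?_, ?_, ?_, fun S hS => ?_, ?_, ?_, fun A h1 h2 h3 h4 => ?_⟩
  · refine gen_iff.2 fun n hn => ?_
    rw [ev, ← hom_aeval j hj, map_eq_zero_iff j hi] at hn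
    have h2 : (2 : K)⁻¹ + 2⁻¹ = 1 := by norm_num
    have := inj_of_der D (a := z * t1 - w * t0) (b := t0) (by
        intro h
        have := congrArg rs h
        simp [hD, z, w, t0, t1] at this
        field_simp at this
        norm_num at this) (by simp [hD, t0])
      ((transcendental_algebraMap_iff (algebraMap K R).injective).2 hst)
      (MvPolynomial.rename (Equiv.swap 0 1) n) (by
        rw [MvPolynomial.aeval_rename, ← hn]
        congr 2
        ext i : 1
        fin_cases i <;> rfl)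
    exact MvPolynomial.rename_injective _ (Equiv.swap 0 1).injective (by rw [this, map_zero])
  · rw [eB]; exact on_add jt o _
  · rw [eB, ← gl_j hj Q _ _ ht, eval_map, eval₂_hom, c1, map_zero]
  · have g1 := (Polynomial.map_ne_zero_iff hi).2 g0
    rw [← Finset.card_image_of_injOn (f := fun A => l.1 * (A.2 - j w)) fun A hA B hB h => by
      rw [on_param jt (hS A hA).1 o, on_param jt (hS B hB).1 o]
      exact congrArg (fun u => (j z + l.1 * u, j w + u / l.1)) h]
    refine (card_le_degree_of_subset_roots (p := (gl Q z w t0 t1).map j) fun u hu => ?_).trans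
      (natDegree_map_le.trans dg)
    obtain ⟨A, hA, rfl⟩ := Finset.mem_image.1 hu
    have := (hS A hA).2
    rw [on_param jt (hS A hA).1 o] at this
    rwa [mem_roots g1, IsRoot, gl_j hj Q _ _ ht]
  · exact gd_next hj ht (by simpa [z, w, t0, b1] using nB)
  · intro t z w h
    have h' := h
    obtain ⟨t0, t1, z0, w0, -, rfl, rfl, rfl, -⟩ := h'
    exact ⟨hW _, hW _, hW _, fun h0 u hu h1 =>
      gd_step hj hi hd (fun t z w h => (hG t z w h).2.2) h h0 hu h1⟩
  · obtain ⟨y, hy⟩ : l.1 * (A.2 - j w) ∈ W := mul_mem (hW _) (sub_mem h4 (hW _))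
    have hy' : algebraMap L M y = l.1 * (A.2 - j w) := hy
    rw [on_param jt h1 o, ← hy'] at h2 h3
    have h5 : y = algebraMap R L U := by
      refine eis dg a0 a1 e ?_ b1 c1 ?_
      · have := gl_eval Q z w t0 t1 (RingHom.id R) (fun _ => rfl) 0
        rw [Polynomial.map_id] at this
        rw [this, ← hD, der_aeval]
        rw [map_add, map_mul, map_mul, hom_aeval rs (rs_alg (k := k) (K := K)),
          hom_aeval rs (rs_alg (k := k) (K := K))]
        have h6 : MvPolynomial.aeval ![z0, w0] (MvPolynomial.pderiv 1 Q) =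
            -(s ^ 2 * MvPolynomial.aeval ![z0, w0] (MvPolynomial.pderiv 0 Q)) :=
          (neg_eq_iff_eq_neg.1 hsq.symm)
        have h7 : MvPolynomial.aeval ![z0, w0] (MvPolynomial.pderiv 0 Q) ≠ 0 := hQ
        simp [hD, z, w, h6]
        field_simp
        simpa [hs] using h7
      · refine (algebraMap L M).injective ?_
        rw [map_zero, ← h2, ← gl_j hj Q _ _ ht, ← Polynomial.map_map, eval_map (algebraMap L M),
          eval₂_hom]
    exact h3 (by rw [eB, h5]; rfl)

end Ivrii.Cub
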