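import Pool.Agent.P.MP_7a8567_an.PX
import Pool.Agent.P.MP_7a8567_an.S3.Basic
import Pool.Agent.P.MP_7a8567_an.NT.Main

set_option autoImplicit false

/-! Good flags over a power series ring. -/

namespace Ivrii.Cub

open Polynomial S3

variable {k : Type} [Field k]

section gl

variable {S S' : Type} [CommRing S] [Algebra k S] [CommRing S'] [Algebra k S']

/-- restriction of `Q` to a parametrised line -/
noncomputable def gl (Q : R2 k) (z w a b : S) : S[X] :=
  MvPolynomial.aeval ![C z + C a * X, C w + C b * X] Q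

lemma gl_eval (Q : R2 k) (z w a b : S) (f : S →+* S')
    (hf : ∀ c, f (algebraMap k S c) = algebraMap k S' c) (u : S') :
    ((gl Q z w a b).map f).eval u = MvPolynomial.aeval ![f z + f a * u, f w + f b * u] Q := by
  rw [eval_map, ← coe_eval₂RingHom, gl, hom_aeval (eval₂RingHom f u) (by simp [hf])]
  simp

lemma gl_deg (Q : R2 k) (z w a b : S) : (gl Q z w a b).natDegree ≤ Q.totalDegree := by
  have h : ∀ c d : S, (C c + C d * X).natDegree ≤ 1 := fun c d => by compute_degree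
  rw [gl, ← MvPolynomial.aeval_map_algebraMap S, ← mul_one Q.totalDegree]
  refine MvPolynomial.aeval_natDegree_le _ (Finset.sup_mono (MvPolynomial.support_map_subset _ _))
    _ fun i => ?_
  fin_cases i <;> exact h _ _

end gl

lemma root4 {M : Type} [Field M] {p : M[X]} (hp : p ≠ 0) (hd : p.natDegree ≤ 3) {a b c d : M}
    (ab : a ≠ b) (ac : a ≠ c) (bc : b ≠ c) (ha : p.eval a = 0) (hb : p.eval b = 0)
    (hc : p.eval c = 0) (h : p.eval d = 0) : d = a ∨ d = b ∨ d = c := by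
  classical
  by_contra hn
  push Not at hn
  refine hp (eq_zero_of_natDegree_lt_card_of_eval_eq_zero' p {d, a, b, c} (by simp [*]) ?_)
  rw [Finset.card_insert_of_notMem (by simp [hn]), Finset.card_eq_three.2 ⟨a, b, c, ab, ac, bc, rfl⟩]
  omega

variable {K : Type} [Field K]

/-- residue -/
noncomputable abbrev rs : PowerSeries K →+* K := PowerSeries.constantCoeff

lemma eis {L : Type} [Field L] [Algebra (PowerSeries K) L] [IsFractionRing (PowerSeries K) L]
    {g : (PowerSeries K)[X]} (hd : g.natDegree ≤ 3) {lc uB : K} (h1 : lc ≠ 0) (h2 : uB ≠ 0)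
    (hg : g.map rs = C lc * (X ^ 2 * (X - C uB)))
    (h0 : rs (PowerSeries.derivative K (g.eval 0)) ≠ 0) {U : PowerSeries K} (hU : rs U = uB)
    (hU' : g.eval U = 0) {y : L} (hy : (g.map (algebraMap _ L)).eval y = 0) :
    y = algebraMap _ L U := by
  have e : C lc * (X ^ 2 * (X - C uB)) = C lc * X ^ 3 - C (lc * uB) * X ^ 2 := by
    rw [C_mul]; ring
  have c : ∀ n, rs (g.coeff n) = (if n = 3 then lc else 0) - if n = 2 then lc * uB else 0 :=
    fun n => by rw [← coeff_map, hg, e, coeff_sub, coeff_C_mul_X_pow, coeff_C_mul_X_pow]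
  have c0 := c 0
  have c1 := c 1
  have c2 := c 2
  have c3 := c 3
  norm_num at c0 c1 c2 c3
  have ev : ∀ Y, g.eval Y = g.coeff 0 + g.coeff 1 * Y + g.coeff 2 * Y ^ 2 + g.coeff 3 * Y ^ 3 :=
    fun Y => by simp [eval_eq_sum_range' (Nat.lt_succ_of_le hd), Finset.sum_range_succ]
  obtain ⟨v, hv⟩ := (PowerSeries.isUnit_iff_constantCoeff.2 (c3 ▸ h1.isUnit)).exists_right_inv
  obtain ⟨Y, rfl⟩ : ∃ Y, algebraMap (PowerSeries K) L Y = y := by
    rcases ValuationRing.isInteger_or_isInteger (PowerSeries K) y with h | ⟨x, hx⟩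
    · exact h
    by_cases y0 : y = 0
    · exact ⟨0, by simp [y0]⟩
    refine ⟨-v * (g.coeff 2 + g.coeff 1 * x + g.coeff 0 * x ^ 2), ?_⟩
    rw [eval_map, eval₂_eq_sum_range' _ (Nat.lt_succ_of_le hd)] at hy
    simp only [Finset.sum_range_succ, Finset.range_zero, Finset.sum_empty] at hy
    have hv' := congrArg (algebraMap _ L) hv
    simp only [map_mul, map_add, map_neg, map_pow, map_one, hx] at hv' ⊢
    field_simp
    linear_combination (-algebraMap _ L v) * hy + y ^ 3 * hv'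
  rw [eval_map, eval₂_hom, map_eq_zero_iff _ (IsFractionRing.injective _ L)] at hy
  have r := congrArg rs hy
  rw [ev] at hy hU' r h0
  simp only [map_add, map_mul, map_pow, c0, c1, c2, c3, map_zero] at r
  by_contra hne
  have hne' : Y - U ≠ 0 := fun h => hne (by rw [sub_eq_zero.1 h])
  by_cases y0 : rs Y = 0
  · apply h0
    have : g.coeff 0 = -Y * (g.coeff 1 + g.coeff 2 * Y + g.coeff 3 * Y ^ 2) := by
      linear_combination hy
    simp only [mul_zero, add_zero, ne_eq, OfNat.ofNat_ne_zero, not_false_eq_true, zero_pow]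
    rw [this, Derivation.leibniz]
    simp [y0, c1]
  · have y1 : rs Y = uB := by
      refine mul_left_cancel₀ (mul_ne_zero h1 (pow_ne_zero 2 y0)) ?_
      linear_combination r
    have : g.coeff 1 + g.coeff 2 * (Y + U) + g.coeff 3 * (Y ^ 2 + Y * U + U ^ 2) = 0 := by
      refine mul_left_cancel₀ hne' ?_
      linear_combination hy - hU'
    have := congrArg rs this
    simp only [map_add, map_mul, map_pow, c1, c2, c3, map_zero, y1, hU] at this
    exact mul_ne_zero h1 (pow_ne_zero 2 h2) (by linear_combination this)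

variable [Algebra k K]

lemma rs_alg (c : k) : rs (algebraMap k (PowerSeries K) c) = algebraMap k K c := by
  simp [PowerSeries.algebraMap_apply]

variable {M : Type} [Field M] [Algebra k M] (j : PowerSeries K →+* M)

/-- flags over the power series ring with good residue -/
def Gd (Good : K → K → K → Prop) (t z w : M) : Prop :=
  ∃ t0 t1 z0 w0 : PowerSeries K, t0 * t1 = 1 ∧ t = j t0 ∧ z = j z0 ∧ w = j w0 ∧
    Good (rs t0) (rs z0) (rs w0)

variable {j} (hj : ∀ c, j (algebraMap k _ c) = algebraMap k M c)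
include hj

lemma gd_next {Q : R2 k} {Good : K → K → K → Prop} {t0 t1 z0 w0 U : PowerSeries K}
    (ht : t0 * t1 = 1) (h : NT.Next Q Good (rs t0) (rs z0) (rs w0) (rs U)) :
    Gd j Good (qv Q (j (z0 + t0 * U), j (w0 + t1 * U)) / j t0) (j (z0 + t0 * U))
      (j (w0 + t1 * U)) := by
  have r1 : rs t1 = (rs t0)⁻¹ := eq_inv_of_mul_eq_one_right (by rw [← map_mul, ht, map_one])
  have r2 : j t1 = (j t0)⁻¹ := eq_inv_of_mul_eq_one_right (by rw [← map_mul, ht, map_one])
  have e1 : rs z0 + rs t0 * rs U = rs (z0 + t0 * U) := by simp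
  have e2 : rs w0 + rs U / rs t0 = rs (w0 + t1 * U) := by simp [r1, div_eq_mul_inv, mul_comm]
  rw [NT.Next, e1, e2, NT.Qz, NT.Qw, ← hom_aeval rs rs_alg, ← hom_aeval rs rs_alg] at h
  obtain ⟨h1, h2, h3⟩ := h
  simp only [qv, ev]
  rw [← hom_aeval j hj, ← hom_aeval j hj]
  generalize MvPolynomial.aeval ![z0 + t0 * U, w0 + t1 * U] (MvPolynomial.pderiv 0 Q) = a at *
  generalize MvPolynomial.aeval ![z0 + t0 * U, w0 + t1 * U] (MvPolynomial.pderiv 1 Q) = b at *
  obtain ⟨a', ha⟩ := (PowerSeries.isUnit_iff_constantCoeff.2 h1.isUnit).exists_right_inv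
  obtain ⟨b', hb⟩ := (PowerSeries.isUnit_iff_constantCoeff.2 h2.isUnit).exists_right_inv
  have r3 : rs a' = (rs a)⁻¹ := eq_inv_of_mul_eq_one_right (by rw [← map_mul, ha, map_one])
  have r4 : j a' = (j a)⁻¹ := eq_inv_of_mul_eq_one_right (by rw [← map_mul, ha, map_one])
  refine ⟨-b * a' * t1, -a * b' * t0, _, _, ?_, ?_, rfl, rfl, ?_⟩
  · linear_combination (b * b' * a * a') * ht + (b * b') * ha + hb
  · simp [r2, r4, div_eq_mul_inv]
  · simpa [r1, r3, div_eq_mul_inv] using h3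

lemma gl_j (Q : R2 k) {t0 t1 : PowerSeries K} (z0 w0 : PowerSeries K) (ht : t0 * t1 = 1) (u : M) :
    ((gl Q z0 w0 t0 t1).map j).eval u = ev (j z0 + j t0 * u, j w0 + u / j t0) Q := by
  have r2 : j t1 = (j t0)⁻¹ := eq_inv_of_mul_eq_one_right (by rw [← map_mul, ht, map_one])
  rw [gl_eval Q _ _ _ _ j hj, r2, ev, div_eq_mul_inv, mul_comm u]

omit hj in
lemma gl_rs [CharZero K] (Q : R2 k) {t0 t1 : PowerSeries K} (z0 w0 : PowerSeries K)
    (ht : t0 * t1 = 1) {p : K[X]}
    (h : ∀ u, MvPolynomial.aeval ![rs z0 + rs t0 * u, rs w0 + u / rs t0] Q = p.eval u) :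
    (gl Q z0 w0 t0 t1).map rs = p := by
  have r1 : rs t1 = (rs t0)⁻¹ := eq_inv_of_mul_eq_one_right (by rw [← map_mul, ht, map_one])
  refine Polynomial.funext fun u => ?_
  rw [gl_eval Q z0 w0 t0 t1 rs rs_alg u, ← h, r1, div_eq_mul_inv, mul_comm u]

lemma gd_step [CharZero K] (hi : Function.Injective j) {Q : R2 k} (hQ : Q.totalDegree = 3)
    {Good : K → K → K → Prop} (hG : ∀ t z w, Good t z w →
      ∃ lc u1 u2 : K, lc ≠ 0 ∧ u1 ≠ 0 ∧ u2 ≠ 0 ∧ u1 ≠ u2 ∧
        (∀ u, MvPolynomial.aeval ![z + t * u, w + u / t] Q = lc * (u * (u - u1) * (u - u2))) ∧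
        NT.Next Q Good t z w u1 ∧ NT.Next Q Good t z w u2)
    {t z w u : M} (h : Gd j Good t z w) (h0 : ev (z, w) Q = 0) (hu : u ≠ 0)
    (h1 : ev (z + t * u, w + u / t) Q = 0) :
    Gd j Good (qv Q (z + t * u, w + u / t) / t) (z + t * u) (w + u / t) := by
  obtain ⟨t0, t1, z0, w0, ht, rfl, rfl, rfl, h⟩ := h
  obtain ⟨lc, u1, u2, a0, a1, a2, a3, a4, n1, n2⟩ := hG _ _ _ h
  have r2 : j t1 = (j t0)⁻¹ := eq_inv_of_mul_eq_one_right (by rw [← map_mul, ht, map_one])
  have e := gl_rs Q z0 w0 ht (p := C lc * (X * (X - C u1) * (X - C u2))) fun u => by simp [a4]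
  obtain ⟨U1, b1, c1⟩ := PX.hensel (gl Q z0 w0 t0 t1) (c := u1) (by simp [e])
    (by simp [e, a0, a1, sub_eq_zero, a3])
  obtain ⟨U2, b2, c2⟩ := PX.hensel (gl Q z0 w0 t0 t1) (c := u2) (by simp [e])
    (by simp [e, a0, a2, sub_eq_zero, a3.symm])
  have g0 : gl Q z0 w0 t0 t1 ≠ 0 := fun h => by
    rw [h, Polynomial.map_zero] at e
    simpa [a0, X_sub_C_ne_zero] using e.symm
  have key : ∀ U, NT.Next Q Good (rs t0) (rs z0) (rs w0) (rs U) → u = j U →
      Gd j Good (qv Q (j z0 + j t0 * u, j w0 + u / j t0) / j t0) (j z0 + j t0 * u)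
        (j w0 + u / j t0) := by
    rintro U n rfl
    have := gd_next hj ht n
    simp only [map_add, map_mul, r2] at this
    rwa [div_eq_inv_mul (j U)]
  have k : ∀ U, (gl Q z0 w0 t0 t1).eval U = 0 → ((gl Q z0 w0 t0 t1).map j).eval (j U) = 0 :=
    fun U h => by rw [eval_map, eval₂_hom, h, map_zero]
  have n : ∀ {a b : PowerSeries K}, rs a ≠ rs b → j a ≠ j b := fun h e => h (by rw [hi e])
  rcases root4 ((Polynomial.map_ne_zero_iff hi).2 g0)
    (natDegree_map_le.trans ((gl_deg ..).trans hQ.le)) (a := j 0) (b := j U1) (c := j U2) (d := u)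
    (n (by simpa [b1] using a1.symm)) (n (by simpa [b2] using a2.symm)) (n (by rwa [b1, b2]))
    (by rw [gl_j hj Q _ _ ht]; simpa using h0) (k _ c1) (k _ c2)
    (by rw [gl_j hj Q _ _ ht, h1]) with e | e | e
  · exact absurd (by simpa using e) hu
  · exact key U1 (b1 ▸ n1) e
  · exact key U2 (b2 ▸ n2) e

end Ivrii.Cub
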