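import Mathlib

set_option autoImplicit false

/-! The tree of flags on a cubic, in abstract form. -/

namespace Ivrii.Cub

variable {Γ X : Type} [Group Γ] [MulAction Γ X]

/-- flags reached from `i φ` after `j` steps (pass to a sibling, reflect) -/
def Lev (i : X → X) (S : X → X → Prop) : ℕ → X → Set X
  | 0, φ => {i φ}
  | j + 1, φ => {χ | ∃ ψ ∈ Lev i S j φ, S ψ (i χ)}

/-- descendants -/
def Desc (i : X → X) (S : X → X → Prop) (ψ φ : X) : Prop := ∃ j, φ ∈ Lev i S j ψ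

variable (Γ) in
structure Tr (i : X → X) (S : X → X → Prop) : Prop where
  ii : ∀ φ, i (i φ) = φ
  ig : ∀ (g : Γ) φ, i (g • φ) = g • i φ
  sg : ∀ (g : Γ) φ χ, S φ χ → S (g • φ) (g • χ)
  symm : ∀ φ χ, S φ χ → S χ φ
  irr : ∀ φ, ¬ S φ φ
  two : ∀ φ, ∃ a b, a ≠ b ∧ S a b ∧ ∀ χ, S φ χ ↔ χ = a ∨ χ = b
  flip : ∀ ψ, ∃ σ : Γ, (∀ φ, Desc i S ψ φ → σ • φ = φ) ∧ ∃ χ, S ψ χ ∧ σ • χ ≠ χ

variable {i : X → X} {S : X → X → Prop}

lemma desc_self (ψ : X) : Desc i S ψ (i ψ) := ⟨0, rfl⟩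

lemma desc_ind {good : X → Prop} (hii : ∀ φ, i (i φ) = φ) {ψ : X} (h0 : good (i ψ))
    (h1 : ∀ φ χ, good φ → S φ χ → good (i χ)) {φ : X} (h : Desc i S ψ φ) : good φ := by
  obtain ⟨j, h⟩ := h
  induction j generalizing φ with
  | zero => rw [show φ = i ψ from h]; exact h0
  | succ j ih =>
    obtain ⟨χ, h2, h3⟩ := h
    have := h1 _ _ (ih h2) h3
    rwa [hii] at this

namespace Tr

variable (T : Tr Γ i S)
include T

lemma fix_i {g : Γ} {φ : X} (h : g • i φ = i φ) : g • φ = φ := by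
  have := congrArg i h
  rwa [T.ig, T.ii] at this

lemma fix_i' {g : Γ} {φ : X} (h : g • φ = φ) : g • i φ = i φ := by rw [← T.ig, h]

lemma lev_step {j : ℕ} {φ ψ χ : X} (h : ψ ∈ Lev i S j φ) (h' : S ψ χ) :
    i χ ∈ Lev i S (j + 1) φ := ⟨ψ, h, by rwa [T.ii]⟩

lemma desc_step {ψ φ χ : X} (h : Desc i S ψ φ) (h' : S φ χ) : Desc i S ψ (i χ) :=
  h.elim fun j h => ⟨j + 1, T.lev_step h h'⟩

lemma desc_trans {ψ φ χ : X} (h : Desc i S ψ (i φ)) (h' : Desc i S φ χ) : Desc i S ψ χ :=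
  desc_ind T.ii h (fun _ _ => T.desc_step) h'

lemma lev_smul (g : Γ) {j : ℕ} {φ χ : X} (h : χ ∈ Lev i S j φ) :
    g • χ ∈ Lev i S j (g • φ) := by
  induction j generalizing χ with
  | zero => rw [show χ = i φ from h, ← T.ig]; rfl
  | succ j ih =>
    obtain ⟨ψ, h1, h2⟩ := h
    exact ⟨g • ψ, ih h1, by rw [T.ig]; exact T.sg g _ _ h2⟩

lemma lev_trans {j m : ℕ} {φ ψ χ : X} (h : ψ ∈ Lev i S j φ) (h' : χ ∈ Lev i S m (i ψ)) :
    χ ∈ Lev i S (j + m) φ := by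
  induction m generalizing χ with
  | zero => rw [show χ = i (i ψ) from h', T.ii]; exact h
  | succ m ih =>
    obtain ⟨ψ', h1, h2⟩ := h'
    exact ⟨ψ', ih h1, h2⟩

lemma sib_fin (φ : X) : {χ | S φ χ}.Finite := by
  obtain ⟨a, b, -, -, h⟩ := T.two φ
  exact (Set.toFinite {a, b}).subset fun χ hχ => (h χ).1 hχ

lemma lev_fin (j : ℕ) (φ : X) : (Lev i S j φ).Finite := by
  induction j with
  | zero => exact Set.finite_singleton _
  | succ j ih =>
    refine ((ih.biUnion fun ψ _ => T.sib_fin ψ).image i).subset ?_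
    rintro χ ⟨ψ, h1, h2⟩
    exact ⟨i χ, Set.mem_biUnion h1 h2, T.ii χ⟩

lemma tri {φ a b : X} (ha : S φ a) (hb : S φ b) (hab : a ≠ b) : S a b := by
  obtain ⟨a', b', -, h1, h2⟩ := T.two φ
  rcases (h2 a).1 ha with rfl | rfl <;> rcases (h2 b).1 hb with rfl | rfl
  exacts [absurd rfl hab, h1, T.symm _ _ h1, absurd rfl hab]

lemma sib_cases {φ a b χ : X} (ha : S φ a) (hb : S φ b) (hab : a ≠ b) (h : S φ χ) :
    χ = a ∨ χ = b := by
  obtain ⟨a', b', -, -, h2⟩ := T.two φ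
  rcases (h2 a).1 ha with rfl | rfl <;> rcases (h2 b).1 hb with rfl | rfl
  exacts [absurd rfl hab, (h2 χ).1 h, ((h2 χ).1 h).symm, absurd rfl hab]

lemma third {φ a : X} (ha : S φ a) : ∃ b, S φ b ∧ a ≠ b := by
  obtain ⟨a', b', h0, -, h2⟩ := T.two φ
  rcases (h2 a).1 ha with rfl | rfl
  exacts [⟨b', (h2 _).2 (Or.inr rfl), h0⟩, ⟨a', (h2 _).2 (Or.inl rfl), h0.symm⟩]

/-- an element fixing `φ` fixes or swaps its siblings -/
lemma act {g : Γ} {φ a b : X} (hg : g • φ = φ) (ha : S φ a) (hb : S φ b) (hab : a ≠ b) :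
    (g • a = a ∧ g • b = b) ∨ (g • a = b ∧ g • b = a) := by
  have h1 := T.sg g _ _ ha
  have h2 := T.sg g _ _ hb
  rw [hg] at h1 h2
  have h3 : g • a ≠ g • b := fun h => hab (smul_left_cancel g h)
  rcases T.sib_cases ha hb hab h1 with h4 | h4 <;> rcases T.sib_cases ha hb hab h2 with h5 | h5
  exacts [absurd (h4.trans h5.symm) h3, Or.inl ⟨h4, h5⟩, Or.inr ⟨h4, h5⟩,
    absurd (h4.trans h5.symm) h3]

lemma swap {φ a b : X} (ha : S φ a) (hb : S φ b) (hab : a ≠ b) :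
    ∃ σ : Γ, (∀ χ, Desc i S φ χ → σ • χ = χ) ∧ σ • φ = φ ∧ σ • a = b ∧ σ • b = a := by
  obtain ⟨σ, h1, χ, h2, h3⟩ := T.flip φ
  have h4 := T.fix_i (h1 _ (desc_self φ))
  refine ⟨σ, h1, h4, (T.act h4 ha hb hab).resolve_left fun h => h3 ?_⟩
  rcases T.sib_cases ha hb hab h2 with rfl | rfl
  exacts [h.1, h.2]

lemma back {j : ℕ} {φ ψ : X} (h : ψ ∈ Lev i S j φ) : Desc i S ψ φ ∧
    (∀ m ≤ j, ∀ χ ∈ Lev i S m φ, Desc i S ψ χ ∨ Desc i S ψ (i χ)) ∧
    ∀ χ ∈ Lev i S j φ, χ ≠ ψ → Desc i S ψ χ := by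
  induction j generalizing ψ with
  | zero =>
    obtain rfl : ψ = i φ := h
    refine ⟨by simpa [T.ii] using desc_self (i := i) (S := S) (i φ), fun m hm χ hχ => ?_,
      fun χ hχ h => absurd hχ h⟩
    obtain rfl : m = 0 := by omega
    obtain rfl : χ = i φ := hχ
    exact Or.inr (desc_self _)
  | succ j ih =>
    obtain ⟨ψ0, h1, h2⟩ := h
    obtain ⟨i1, i2, i3⟩ := ih h1
    have h3 : Desc i S ψ (i ψ0) := T.desc_step (desc_self ψ) (T.symm _ _ h2)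
    have h4 : ∀ χ ∈ Lev i S (j + 1) φ, χ ≠ ψ → Desc i S ψ χ := by
      rintro χ ⟨χ0, h5, h6⟩ hne
      rw [← T.ii χ]
      by_cases e : χ0 = ψ0
      · subst e
        refine T.desc_step (desc_self ψ) (T.tri h2 h6 fun e => hne ?_)
        rw [← T.ii χ, ← e, T.ii]
      · exact T.desc_step (T.desc_trans h3 (i3 χ0 h5 e)) h6
    refine ⟨T.desc_trans h3 i1, fun m hm χ hχ => ?_, h4⟩
    rcases hm.lt_or_eq with hm | rfl
    · exact (i2 m (by omega) χ hχ).imp (T.desc_trans h3) (T.desc_trans h3)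
    · by_cases e : χ = ψ
      · rw [e]; exact Or.inr (desc_self ψ)
      · exact Or.inl (h4 χ hχ e)

lemma adj (j : ℕ) (φ : X) (u : Γ) (hu : ∀ ψ ∈ Lev i S j φ, u • ψ = ψ) (A : Finset X)
    (hA : ∀ ψ ∈ A, ψ ∈ Lev i S j φ) : ∃ h : Γ, (∀ χ, Desc i S (i φ) χ → h • χ = χ) ∧
      (∀ m ≤ j, ∀ χ ∈ Lev i S m φ, h • χ = χ) ∧ ∀ ψ ∈ A, ∀ χ, S ψ χ → h • χ = u • χ := by
  classical
  induction A using Finset.induction_on with
  | empty => exact ⟨1, by simp, by simp, by simp⟩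
  | insert ψ A hψ ih =>
    obtain ⟨h, h1, h2, h3⟩ := ih fun χ hχ => hA χ (by simp [hχ])
    have hj := hA ψ (by simp)
    obtain ⟨a, b, hab, -, h4⟩ := T.two ψ
    have ha := (h4 a).2 (Or.inl rfl)
    have hb := (h4 b).2 (Or.inr rfl)
    by_cases e : h • a = u • a ∧ h • b = u • b
    · refine ⟨h, h1, h2, fun ψ' h5 χ hχ => ?_⟩
      rcases Finset.mem_insert.1 h5 with rfl | h5
      · rcases (h4 χ).1 hχ with rfl | rfl
        exacts [e.1, e.2]
      · exact h3 ψ' h5 χ hχ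
    obtain ⟨σ, s1, -, s2, s3⟩ := T.swap ha hb hab
    obtain ⟨b1, b2, b3⟩ := T.back hj
    refine ⟨h * σ, fun χ hχ => ?_, fun m hm χ hχ => ?_, fun ψ' h5 χ hχ => ?_⟩
    · rw [mul_smul, s1 χ (T.desc_trans (by rwa [T.ii]) hχ), h1 χ hχ]
    · rw [mul_smul, (b2 m hm χ hχ).elim (s1 χ) fun h6 => T.fix_i (s1 _ h6), h2 m hm χ hχ]
    · rcases Finset.mem_insert.1 h5 with rfl | h5
      · have k1 := T.act (h2 j le_rfl _ hj) ha hb hab
        have k2 := T.act (hu _ hj) ha hb hab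
        rw [mul_smul]
        rcases (h4 χ).1 hχ with rfl | rfl
        · rw [s2]; rcases k1 with k1 | k1 <;> rcases k2 with k2 | k2 <;> simp_all
        · rw [s3]; rcases k1 with k1 | k1 <;> rcases k2 with k2 | k2 <;> simp_all
      · have h6 := b3 ψ' (hA ψ' (by simp [h5])) fun e => hψ (e ▸ h5)
        rw [mul_smul, T.fix_i (s1 _ (T.desc_step h6 hχ)), h3 ψ' h5 χ hχ]

/-- the two sides of a flag are independent -/
lemma split {φ : X} {g : Γ} (hg : g • φ = φ) (L : ℕ) : ∃ g' : Γ,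
    (∀ χ, Desc i S (i φ) χ → g' • χ = χ) ∧ ∀ m ≤ L, ∀ χ ∈ Lev i S m φ, g' • χ = g • χ := by
  induction L with
  | zero =>
    refine ⟨1, by simp, fun m hm χ hχ => ?_⟩
    obtain rfl : m = 0 := by omega
    rw [show χ = i φ from hχ, one_smul, T.fix_i' hg]
  | succ L ih =>
    obtain ⟨g', h1, h2⟩ := ih
    obtain ⟨h, h3, h4, h5⟩ := T.adj L φ (g'⁻¹ * g) (fun ψ hψ => by
      rw [mul_smul, ← h2 L le_rfl ψ hψ, inv_smul_smul]) (T.lev_fin L φ).toFinset (by simp)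
    refine ⟨g' * h, fun χ hχ => by rw [mul_smul, h3 χ hχ, h1 χ hχ], fun m hm χ hχ => ?_⟩
    rcases hm.lt_or_eq with hm | rfl
    · rw [mul_smul, h4 m (by omega) χ hχ, h2 m (by omega) χ hχ]
    · obtain ⟨ψ, h6, h7⟩ := hχ
      have := h5 ψ (by simpa using h6) _ h7
      rw [← T.ig, ← T.ig] at this
      have := congrArg i this
      rw [T.ii, T.ii] at this
      rw [mul_smul, this, mul_smul, smul_inv_smul]

omit T in
lemma pow_fix {g : Γ} {φ : X} (h : g • φ = φ) (n : ℕ) : g ^ n • φ = φ :=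
  MulAction.mem_stabilizer_iff.1 (pow_mem (MulAction.mem_stabilizer_iff.2 h) n)

/-- the stabiliser of a flag acts on its levels through a 2-group -/
lemma two_pow {g : Γ} {φ : X} (h : g • φ = φ) (j : ℕ) :
    ∀ m ≤ j, ∀ χ ∈ Lev i S m φ, g ^ 2 ^ j • χ = χ := by
  induction j with
  | zero =>
    intro m hm χ hχ
    obtain rfl : m = 0 := by omega
    rw [show χ = i φ from hχ, pow_zero, pow_one, T.fix_i' h]
  | succ j ih =>
    intro m hm χ hχ
    rw [pow_succ, pow_mul]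
    rcases hm.lt_or_eq with hm | rfl
    · exact pow_fix (ih m (by omega) χ hχ) 2
    · obtain ⟨ψ, h1, h2⟩ := hχ
      obtain ⟨b, hb, hab⟩ := T.third h2
      refine T.fix_i ?_
      rw [sq, mul_smul]
      rcases T.act (ih j le_rfl ψ h1) h2 hb hab with k | k
      · rw [k.1, k.1]
      · rw [k.1, k.2]

/-- a three-cycle on a line whose two-power powers move the flag -/
lemma cyc (φ : X) : ∃ c : Γ, (c ^ 3 • φ = φ ∧ ∀ χ, S φ χ → c ^ 3 • χ = χ) ∧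
    ∀ e : ℕ, S φ (c ^ 2 ^ e • φ) := by
  obtain ⟨a, b, hab, h0, h⟩ := T.two φ
  have ha := (h a).2 (Or.inl rfl)
  have hb := (h b).2 (Or.inr rfl)
  have n1 : φ ≠ a := fun e => T.irr φ (e ▸ ha)
  obtain ⟨σ, -, s1, s2, s3⟩ := T.swap ha hb hab
  obtain ⟨σ', -, t1, t2, t3⟩ := T.swap (T.symm _ _ hb) (T.symm _ _ h0) n1
  have c1 : (σ * σ') • φ = b := by rw [mul_smul, t2, s2]
  have c2 : (σ * σ') • b = a := by rw [mul_smul, t1, s3]
  have c3 : (σ * σ') • a = φ := by rw [mul_smul, t3, s1]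
  generalize σ * σ' = c at c1 c2 c3
  refine ⟨c, ⟨?_, fun χ hχ => ?_⟩, fun e => ?_⟩
  · rw [pow_three, mul_smul, mul_smul, c1, c2, c3]
  · rw [pow_three, mul_smul, mul_smul]
    rcases (h χ).1 hχ with rfl | rfl
    · rw [c3, c1, c2]
    · rw [c2, c3, c1]
  · have : (c ^ 2 ^ e • φ = b ∧ c ^ 2 ^ e • b = a ∧ c ^ 2 ^ e • a = φ) ∨
        (c ^ 2 ^ e • φ = a ∧ c ^ 2 ^ e • a = b ∧ c ^ 2 ^ e • b = φ) := by
      induction e with
      | zero => left; simpa using ⟨c1, c2, c3⟩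
      | succ e ih =>
        rw [pow_succ, pow_mul, sq]
        simp only [mul_smul]
        rcases ih with ⟨k1, k2, k3⟩ | ⟨k1, k2, k3⟩
        · right; rw [k1, k2, k3, k1]; exact ⟨rfl, rfl, rfl⟩
        · left; rw [k1, k2, k3, k1]; exact ⟨rfl, rfl, rfl⟩
    rcases this with k | k <;> rw [k.1]
    exacts [hb, ha]

end Tr

end Ivrii.Cub
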